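import Pool.Agent.Run7.h517.WR.PDef
import Pool.Agent.Run7.h517.WS7
import Pool.Agent.Run7.h336.CB.B18

/-!
# The growth rates of the min-max values of Weil's form: the general theorem in the variable `z`
-/

set_option autoImplicit false
set_option linter.unusedSectionVars false
set_option maxHeartbeats 2000000

open Complex Filter Topology Set MeasureTheory
open scoped ComplexConjugate

namespace Pool.Agent.Run7.h517.WR

open Y23.G Y23.G.WS
open Pool.Agent.Run7.h336.CB.S (F InDom RealZeros F_real inDom_iff)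

section

variable (L : LFun) (X : ℂ → ℂ) {C : ℂ} (hC : C ≠ 0) (hX : ∀ z, L.X (1 / 2 + I * z) = C * X z)

include hC hX

lemma zero_iff (s : ℂ) : s ∈ (zd (L := L)).Zs ↔ X (-I * (s - 1 / 2)) = 0 := by
  have e : (1 / 2 : ℂ) + I * (-I * (s - 1 / 2)) = s := by linear_combination (-(s - 1 / 2)) * Complex.I_mul_I
  have h1 := hX (-I * (s - 1 / 2))
  rw [e] at h1
  show L.X s = 0 ↔ _
  rw [h1, mul_eq_zero, or_iff_right hC]

lemma zeros_iff (k : ℕ) (h : ℝ) : Zeros X k h ↔ MZ (D := zd (L := L)) k (1 / 2 + h) := by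
  have hre : ∀ z : ℂ, (1 / 2 + I * conj z).re = 1 / 2 + z.im := by
    intro z
    rw [Complex.add_re, Complex.I_mul_re, Complex.conj_im, neg_neg]
    norm_num
  have hs : ∀ z : ℂ, 1 - conj (1 / 2 + I * z) = 1 / 2 + I * conj z := by
    intro z
    rw [map_add, map_div₀, map_one, map_ofNat, map_mul, Complex.conj_I]
    ring
  have hz : ∀ z : ℂ, X z = 0 ↔ (1 / 2 + I * conj z) ∈ (zd (L := L)).Zs := by
    intro z
    have h1 : X z = 0 ↔ (1 / 2 + I * z) ∈ (zd (L := L)).Zs := by
      rw [zero_iff L X hC hX]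
      have e : -I * (1 / 2 + I * z - 1 / 2) = z := by linear_combination (-z) * Complex.I_mul_I
      rw [e]
    rw [h1]
    constructor
    · intro h2
      have h3 := (zd (L := L)).refl _ h2
      rwa [hs] at h3
    · intro h2
      have h3 := (zd (L := L)).refl _ h2
      rwa [hs, conj_conj] at h3
  constructor
  · rintro ⟨w, h1, h2⟩
    refine ⟨fun i => 1 / 2 + I * conj (w i), fun i j hij => h1 ?_, fun i => ⟨(hz _).1 (h2 i).1, ?_⟩⟩
    · have h3 := mul_left_cancel₀ Complex.I_ne_zero (add_left_cancel hij)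
      exact (starRingEnd ℂ).injective h3
    · rw [hre]
      linarith [(h2 i).2]
  · rintro ⟨w, h1, h2⟩
    have e : ∀ s : ℂ, 1 / 2 + I * conj (conj (-I * (s - 1 / 2))) = s := by
      intro s
      rw [conj_conj]
      linear_combination (-(s - 1 / 2)) * Complex.I_mul_I
    refine ⟨fun i => conj (-I * (w i - 1 / 2)), fun i j hij => h1 ?_, fun i => ⟨(hz _).2 ?_, ?_⟩⟩
    · rw [← e (w i), ← e (w j)]
      simp only at hij
      rw [hij]
    · rw [e]
      exact (h2 i).1
    · have h3 := hre (conj (-I * (w i - 1 / 2)))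
      rw [e] at h3
      linarith [(h2 i).2]

lemma theta_eq {k : ℕ} (hk : 1 ≤ k) (hz : Zeros X k 0) : theta X k = th (D := zd (L := L)) k - 1 / 2 := by
  have hm : MZ (D := zd (L := L)) k (1 / 2) := by
    have := (zeros_iff L X hC hX k 0).1 hz
    rwa [add_zero] at this
  have hb := th_bdd (D := zd (L := L)) hk
  unfold theta th
  apply le_antisymm
  · refine csSup_le ⟨0, by norm_num, hz⟩ ?_
    rintro h ⟨h1, h2⟩
    have h3 := le_csSup hb (show 1 / 2 + h ∈ {σ : ℝ | 0 ≤ σ ∧ MZ (D := zd (L := L)) k σ} from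
      ⟨by linarith, (zeros_iff L X hC hX k h).1 h2⟩)
    linarith
  · have hb' : BddAbove {h : ℝ | -(1 / 2) ≤ h ∧ Zeros X k h} := by
      obtain ⟨B, hB⟩ := hb
      refine ⟨B - 1 / 2, ?_⟩
      rintro h ⟨h1, h2⟩
      have h3 := hB (show 1 / 2 + h ∈ {σ : ℝ | 0 ≤ σ ∧ MZ (D := zd (L := L)) k σ} from
        ⟨by linarith, (zeros_iff L X hC hX k h).1 h2⟩)
      linarith
    have h1 : sSup {σ : ℝ | 0 ≤ σ ∧ MZ (D := zd (L := L)) k σ} ≤ sSup {h : ℝ | -(1 / 2) ≤ h ∧ Zeros X k h} + 1 / 2 := by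
      refine csSup_le ⟨1 / 2, by norm_num, hm⟩ ?_
      rintro σ ⟨h2, h3⟩
      have h4 := le_csSup hb' (show σ - 1 / 2 ∈ {h : ℝ | -(1 / 2) ≤ h ∧ Zeros X k h} from
        ⟨by linarith, (zeros_iff L X hC hX k _).2 (by rwa [show (1 : ℝ) / 2 + (σ - 1 / 2) = σ by ring])⟩)
      linarith
    linarith

lemma real_iff : RealZeros X ↔ ∀ ρ : Zt (D := zd (L := L)), (ρ : ℂ).re = 1 / 2 := by
  constructor
  · intro h ρ
    have h1 := h _ ((zero_iff L X hC hX _).1 ρ.2)
    simp at h1
    linarith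
  · intro h z hz
    have h1 : (1 / 2 + I * z) ∈ (zd (L := L)).Zs := by
      rw [zero_iff L X hC hX]
      have e : -I * (1 / 2 + I * z - 1 / 2) = z := by linear_combination (-z) * Complex.I_mul_I
      rw [e]
      exact hz
    have h2 := h ⟨_, h1⟩
    simp at h2
    exact h2

end

lemma logNorm_eq (f : ℝ → ℂ) : LogNorm f = LL f := by
  unfold LogNorm LL
  refine integral_congr_ae (Eventually.of_forall fun t => ?_)
  simp only [F_real]
  rfl

/-- **The general theorem in the variable `z`.** -/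
theorem rates (L : LFun) (X : ℂ → ℂ) {C : ℂ} (hC : C ≠ 0) (hX : ∀ z, L.X (1 / 2 + I * z) = C * X z)
    (W : ℝ → (ℝ → ℂ) → ℝ)
    (hW : ∀ a : ℝ, 0 < a → ∀ f, InDom a f → W a f = QQ (D := zd (L := L)) f) : Rates X L.m L.N W := by
  have hlam : ∀ (k : ℕ) {a : ℝ}, 0 < a → lam W k a = lm (D := zd (L := L)) k a := by
    intro k a ha
    unfold lam lm Le
    congr 1
    ext r
    simp only [Set.mem_ofPred_eq]
    refine exists_congr fun f => ?_
    rw [forall_congr' fun i => inDom_iff a (f i)]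
    refine and_congr_right fun hf => forall_congr' fun c => imp_congr_right fun _ => ?_
    have h1 : Hd a (comb c f) := (lc_Hd hf c).1
    rw [logNorm_eq, hW a ha _ ((inDom_iff a _).2 h1)]
    rfl
  have hev : ∀ (k : ℕ) (g : ℝ → ℝ), (∃ A : ℝ, ∀ a : ℝ, A ≤ a → lam W k a ≤ g a) ↔
      ∃ A : ℝ, ∀ a : ℝ, A ≤ a → lm (D := zd (L := L)) k a ≤ g a := by
    intro k g
    constructor
    · rintro ⟨A, H⟩
      refine ⟨max A 1, fun a ha => ?_⟩
      rw [← hlam k (by linarith [le_max_right A 1])]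
      exact H a ((le_max_left _ _).trans ha)
    · rintro ⟨A, H⟩
      refine ⟨max A 1, fun a ha => ?_⟩
      rw [hlam k (by linarith [le_max_right A 1])]
      exact H a ((le_max_left _ _).trans ha)
  have hfr : ∀ (k : ℕ) (P : ℝ → ℝ → Prop), (∀ A : ℝ, ∃ a : ℝ, A ≤ a ∧ P a (lam W k a)) ↔
      ∀ A : ℝ, ∃ a : ℝ, A ≤ a ∧ P a (lm (D := zd (L := L)) k a) := by
    intro k P
    constructor
    · intro H A
      obtain ⟨a, h1, h2⟩ := H (max A 1)
      refine ⟨a, (le_max_left _ _).trans h1, ?_⟩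
      rwa [← hlam k (by linarith [le_max_right A 1])]
    · intro H A
      obtain ⟨a, h1, h2⟩ := H (max A 1)
      refine ⟨a, (le_max_left _ _).trans h1, ?_⟩
      rwa [hlam k (by linarith [le_max_right A 1])]
  have hcount : ∀ (k : ℕ) (h : ℝ), 1 ≤ k → 0 ≤ h →
      (Zeros X k h ↔ ∃ ε A : ℝ, 0 < ε ∧ ∀ a : ℝ, A ≤ a → lam W k a ≤ -Real.exp ((2 * h + ε) * a)) ∧
      (Zeros X k h ↔ ∃ ε : ℝ, 0 < ε ∧ ∀ A : ℝ, ∃ a : ℝ, A ≤ a ∧ lam W k a ≤ -Real.exp ((2 * h + ε) * a)) := by
    intro k h hk hh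
    obtain ⟨h1, h2⟩ := count (D := zd (L := L)) hk hh
    rw [zeros_iff L X hC hX]
    constructor
    · rw [h1]
      refine exists_congr fun ε => ?_
      rw [exists_and_left, exists_and_left]
      exact and_congr_right fun _ => (hev k fun a => -Real.exp ((2 * h + ε) * a)).symm
    · rw [h2]
      refine exists_congr fun ε => and_congr_right fun _ => ?_
      exact (hfr k fun a y => y ≤ -Real.exp ((2 * h + ε) * a)).symm
  have hrh : RealZeros X ↔ ¬ Zeros X 1 0 := by
    rw [real_iff L X hC hX, zeros_iff L X hC hX, add_zero]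
    constructor
    · rintro h ⟨w, _, hw⟩
      have h1 := h ⟨w 0, (hw 0).1⟩
      have h2 := (hw 0).2
      simp only at h1
      linarith
    · intro h ρ
      by_contra hne
      refine h ?_
      rcases lt_or_gt_of_ne hne with h1 | h1
      · refine ⟨fun _ => ((rfZ ρ : Zt) : ℂ), fun i j _ => Subsingleton.elim i j, fun _ => ⟨(rfZ ρ).2, ?_⟩⟩
        rw [rfZ_val, Complex.sub_re, Complex.conj_re, Complex.one_re]
        linarith
      · exact ⟨fun _ => (ρ : ℂ), fun i j _ => Subsingleton.elim i j, fun _ => ⟨ρ.2, h1⟩⟩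
  refine ⟨?_, hcount, fun k hk hz => ?_, fun a ha => ?_, ?_, fun c hc => ?_, ?_⟩
  · obtain ⟨C', hC', H⟩ := lower (D := zd (L := L))
    refine ⟨C', hC', fun k h hh hz a ha => ?_⟩
    rw [zeros_iff L X hC hX] at hz
    rw [hlam k ha]
    exact (H k a h ha hh hz).2
  · have h0 := (zeros_iff L X hC hX k 0).1 hz
    rw [add_zero] at h0
    have h1 := rate (D := zd (L := L)) hk h0
    rw [theta_eq L X hC hX hk hz]
    refine h1.congr' ?_
    filter_upwards [eventually_gt_atTop 0] with a ha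
    rw [hlam k ha]
  · have h1 := lm_greatest (D := zd (L := L)) ha
    rw [hlam 1 ha]
    have e : {r : ℝ | ∀ f : ℝ → ℂ, InDom a f → r * LogNorm f ≤ W a f} =
        {r : ℝ | ∀ f : ℝ → ℂ, Hd a f → r * LL f ≤ QQ (D := zd (L := L)) f} := by
      ext r
      simp only [Set.mem_ofPred_eq]
      refine forall_congr' fun f => ?_
      rw [inDom_iff]
      refine imp_congr_right fun hf => ?_
      rw [logNorm_eq, hW a ha f ((inDom_iff a f).2 hf)]
    rw [e]
    exact h1
  · rw [real_iff L X hC hX, rh_nonneg (D := zd (L := L))]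
    exact forall_congr' fun a => imp_congr_right fun ha => by rw [hlam 1 ha]
  · have hcc : cc (L := L) = Real.pi * L.m * L.N ^ (-1 / (L.m : ℝ)) := by
      have hN : 0 < L.N := lt_of_lt_of_le one_pos L.raw.hN
      unfold cc
      rw [Real.rpow_def_of_pos hN]
      congr 2
      ring
    obtain ⟨A, hA, H⟩ := small (L := L) (c := c) (by rw [hcc]; exact hc)
    refine ⟨A, fun a ha => ?_⟩
    rw [hlam 1 (by linarith)]
    exact H a ha
  · rw [hrh, not_not, (hcount 1 0 le_rfl le_rfl).1]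
    simp only [mul_zero, zero_add]

end Pool.Agent.Run7.h517.WR
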