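import Pool.Agent.Run7.h517.WR.Port
import Pool.Agent.Run7.h833.FW.Port
import Pool.Agent.Run7.h833.FW.OFC
import Pool.Agent.Run7.h833.FW.CLV2
import Pool.Agent.Run7.h517.FW.CLU2
import Pool.Agent.Run7.h336.FW.BDD
import Pool.Agent.Run7.h336.FW.FIN2

/-!
# The finite criterion and the growth rates together
-/

set_option autoImplicit false

open Complex

namespace Pool.Agent.Run7.h517.WR

open Y23.G
open Pool.Agent.Run7.h336.CB.S (InDom)

theorem fin2 (L : LFun) : FW.S_FIN2 (L := L) :=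
  FW.t_FIN2 FW.t_CLU2 FW.t_CLV2 FW.t_OFC FW.t_BDD FW.t_CUT

/-- the finite criterion and the growth rates -/
theorem both (L : LFun) (X : ℂ → ℂ) {C : ℂ} (hC : C ≠ 0) (hX : ∀ z, L.X (1 / 2 + I * z) = C * X z)
    (W : ℝ → (ℝ → ℂ) → ℝ)
    (hW : ∀ a : ℝ, 0 < a → ∀ f, InDom a f → W a f = QQ (D := zd (L := L)) f) :
    Rates X L.m L.N W ∧ Pool.Agent.Run7.h833.FW.P.Statement X L.m W :=
  ⟨rates L X hC hX W hW, Pool.Agent.Run7.h833.FW.P.port L (fin2 L) X hC hX W hW⟩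

end Pool.Agent.Run7.h517.WR
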