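import Pool.Agent.Run7.h336.CB.SDef

/-!
# The statement on the growth rates of the min-max values of Weil's quadratic form, in the variable `z`, `s = k/2 + i z`
-/

set_option autoImplicit false

open Complex Filter Topology Set MeasureTheory

namespace Pool.Agent.Run7.h517.WR

open Pool.Agent.Run7.h336.CB.S (F InDom RealZeros)

/-- The logarithmic norm of the form domain. -/
noncomputable def LogNorm (f : ℝ → ℂ) : ℝ := ∫ t : ℝ, Real.log (3 + |t|) * ‖F f t‖ ^ 2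

/-- The linear combination of `f 0, …, f (k - 1)` with the coefficients `c`. -/
noncomputable def comb {k : ℕ} (c : Fin k → ℂ) (f : Fin k → ℝ → ℂ) : ℝ → ℂ := fun x => ∑ i, c i * f i x

/-- The `k`-th min-max value of `W a / LogNorm`: the infimum of the numbers `r` such that `W a ≤ r * LogNorm` on a
`k`-dimensional space of functions of the form domain. -/
noncomputable def lam (W : ℝ → (ℝ → ℂ) → ℝ) (k : ℕ) (a : ℝ) : ℝ :=
  sInf {r : ℝ | ∃ f : Fin k → ℝ → ℂ, (∀ i, InDom a (f i)) ∧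
    ∀ c : Fin k → ℂ, c ≠ 0 → 0 < LogNorm (comb c f) ∧ W a (comb c f) ≤ r * LogNorm (comb c f)}

/-- `X` has at least `k` distinct zeros with imaginary part greater than `h`. -/
def Zeros (X : ℂ → ℂ) (k : ℕ) (h : ℝ) : Prop :=
  ∃ w : Fin k → ℂ, Function.Injective w ∧ ∀ i, X (w i) = 0 ∧ h < (w i).im

/-- The `k`-th largest imaginary part of a zero of `X`: the supremum of the `h ≥ -1/2` above which there are at least
`k` distinct zeros. -/
noncomputable def theta (X : ℂ → ℂ) (k : ℕ) : ℝ := sSup {h : ℝ | -(1 / 2) ≤ h ∧ Zeros X k h}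

/-- The theorem for the function `X` of degree `m` and conductor `N` and the forms `W a`. -/
structure Rates (X : ℂ → ℂ) (m : ℕ) (N : ℝ) (W : ℝ → (ℝ → ℂ) → ℝ) : Prop where
  /-- the lower bound -/
  lower : ∃ C : ℝ, 0 < C ∧ ∀ (k : ℕ) (h : ℝ), 0 ≤ h → ¬ Zeros X k h →
    ∀ a : ℝ, 0 < a → -(C * (1 + a) ^ 2 * Real.exp (2 * h * a)) ≤ lam W k a
  /-- the counting of the zeros above a line -/
  count : ∀ (k : ℕ) (h : ℝ), 1 ≤ k → 0 ≤ h →
    (Zeros X k h ↔ ∃ ε A : ℝ, 0 < ε ∧ ∀ a : ℝ, A ≤ a → lam W k a ≤ -Real.exp ((2 * h + ε) * a)) ∧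
    (Zeros X k h ↔ ∃ ε : ℝ, 0 < ε ∧ ∀ A : ℝ, ∃ a : ℝ, A ≤ a ∧ lam W k a ≤ -Real.exp ((2 * h + ε) * a))
  /-- the exact rates -/
  rate : ∀ k : ℕ, 1 ≤ k → Zeros X k 0 →
    Tendsto (fun a : ℝ => Real.log (-lam W k a) / (2 * a)) atTop (𝓝 (theta X k))
  /-- the first value is the optimal constant -/
  greatest : ∀ a : ℝ, 0 < a → IsGreatest {r : ℝ | ∀ f : ℝ → ℂ, InDom a f → r * LogNorm f ≤ W a f} (lam W 1 a)
  /-- the first value and the reality of the zeros -/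
  nonneg : RealZeros X ↔ ∀ a : ℝ, 0 < a → 0 ≤ lam W 1 a
  /-- the upper bound of the first value -/
  small : ∀ c : ℝ, c < 2 * (Real.pi * m * N ^ (-1 / (m : ℝ))) → ∃ A : ℝ, ∀ a : ℝ, A ≤ a →
    lam W 1 a ≤ Real.exp (-(c * Real.exp (2 * a / m)))
  /-- the first value if there is a non-real zero -/
  negative : ¬ RealZeros X ↔ ∃ ε A : ℝ, 0 < ε ∧ ∀ a : ℝ, A ≤ a → lam W 1 a ≤ -Real.exp (ε * a)

end Pool.Agent.Run7.h517.WR
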